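import Pool.Agent.R526.PT.Scale

set_option autoImplicit false

/-! # Almost surely all patterns occur -/

namespace Pool.Agent.R526.PT

open MeasureTheory ProbabilityTheory Filter Finset Pool.Agent.R526.RS Pool.Agent.H622R3.SP Topology

open scoped Classical

variable {Ω : Type} [MeasurableSpace Ω] (μ : Measure Ω) [IsProbabilityMeasure μ]

theorem patterns (D : ℝ) (hD : 1 ≤ D) (δ : ℝ) (hδ0 : 0 < δ) (hδ1 : δ ≤ 1) : ∃ c : ℝ, 0 < c ∧ c ≤ 1 / 8 ∧
    ∀ (W : ℕ → ℕ), Monotone W → (∀ᶠ n : ℕ in atTop, (W (2 * n) : ℝ) ≤ D * W n) →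
    ∀ (Ω : Type) [MeasurableSpace Ω] (μ : Measure Ω) [IsProbabilityMeasure μ]
      (X : ℕ → Ω → ℕ), (∀ p, Measurable (X p)) → iIndepFun X μ → ∀ p₀ : ℕ,
      (∀ p : ℕ, p.Prime → p₀ ≤ p → Law μ (X p) 0 (W p) δ) →
      ∀ᵐ ω ∂μ, ∀ᶠ N : ℕ in atTop, ∀ H : Finset ℕ, Adm c W N H →
        ∃ n : ℕ, n + ML c W N ≤ N ∧ ∀ h ≤ ML c W N, (∃ p : ℕ, p.Prime ∧ p + 2 * X p ω = n + h) ↔ h ∈ H := by
  obtain ⟨K, lam, c₀, hK, hlam, hc₀, hreg⟩ := back_all_scales (1 / 2) (by norm_num) (by norm_num)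
  obtain ⟨j, hj⟩ := pow_unbounded_of_one_lt (4 / c₀) (show (1 : ℝ) < 2 by norm_num)
  set D' : ℝ := D ^ j with hD'
  have hD'1 : 1 ≤ D' := one_le_pow₀ hD
  set l := Real.log (1 / δ) with hl
  have hl0 : 0 ≤ l := Real.log_nonneg (by rw [le_div_iff₀ hδ0]; linarith)
  set P1 : ℝ := 2 * D' * (1 + 2 * lam * (5 + K)) with hP1
  set P2 : ℝ := 1 + l + 2 * lam * l + 8 * lam * D' with hP2
  have hP1' : 1 ≤ P1 := by
    rw [hP1]
    have : 0 ≤ 2 * lam * (5 + K) := by positivity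
    nlinarith
  have hP2' : 1 ≤ P2 := by
    rw [hP2]
    have : 0 ≤ l + 2 * lam * l + 8 * lam * D' := by positivity
    linarith
  set P3 : ℝ := 1 + D' * K with hP3
  have hP3' : 1 ≤ P3 := by
    rw [hP3]
    have : 0 ≤ D' * K := by positivity
    linarith
  set c : ℝ := 1 / (8 * (P1 * P2 * P3)) with hc
  have hP : 1 ≤ P1 * P2 * P3 := one_le_mul_of_one_le_of_one_le (one_le_mul_of_one_le_of_one_le hP1' hP2') hP3'
  have hc0 : 0 < c := by positivity
  have hcle : ∀ P : ℝ, 0 ≤ P → P ≤ P1 * P2 * P3 → c * P ≤ 1 / 8 := by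
    intro P hP0 hPle
    rw [hc, one_div, inv_mul_le_iff₀ (by positivity)]
    nlinarith
  have hc1 : c ≤ 1 / 8 := by
    have := hcle 1 zero_le_one hP
    linarith
  refine ⟨c, hc0, hc1, ?_⟩
  intro W hmono hdbl Ω _ μ _ X hX hind p₀ hlaw
  obtain ⟨n₂, hn₂⟩ := eventually_atTop.1 hdbl
  by_cases hW1 : ∃ n₃, 1 ≤ W n₃
  swap
  · push Not at hW1
    filter_upwards with ω
    filter_upwards [eventually_ge_atTop 2] with N hN H hH
    exfalso
    obtain ⟨h1, h2, h3, h4⟩ := hH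
    have h5 : W N = 0 := by
      have := hW1 N
      omega
    rw [h5, Nat.cast_zero, mul_zero] at h3
    have h6 : 0 < Real.log (N : ℝ) := Real.log_pos (by exact_mod_cast (by omega : 1 < N))
    have h7 : (0 : ℝ) < H.card := by exact_mod_cast h1.card_pos
    have := mul_pos h7 h6
    linarith
  obtain ⟨n₃, hn₃⟩ := hW1
  set n₁ : ℕ := max (max n₂ n₃) (max p₀ 1) with hn₁
  have hn12 : n₂ ≤ n₁ := (le_max_left _ _).trans (le_max_left _ _)
  have hn13 : n₃ ≤ n₁ := (le_max_right _ _).trans (le_max_left _ _)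
  have hn1p : p₀ ≤ n₁ := (le_max_left _ _).trans (le_max_right _ _)
  have hWlow : ∀ N : ℕ, ∀ p : ℕ, n₁ ≤ p → c₀ / 4 * N ≤ p → (W N : ℝ) ≤ D' * W p := by
    intro N p h1 h2
    have h3 : N ≤ 2 ^ j * p := by
      have h4 : (N : ℝ) ≤ 2 ^ j * p := by
        have h5 : (N : ℝ) = 4 / c₀ * (c₀ / 4 * N) := by field_simp
        rw [h5]
        exact mul_le_mul hj.le h2 (by positivity) (by positivity)
      exact_mod_cast h4
    have h4 : (W N : ℝ) ≤ W (2 ^ j * p) := by exact_mod_cast hmono h3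
    exact h4.trans (dbl W D hD n₂ hn₂ j p (hn12.trans h1))
  have hbad : ∀ᶠ N : ℕ in atTop, μ.real {ω | ∃ H, Adm c W N H ∧ ¬ Shown c W N c₀ X H ω} ≤ 1 / (N : ℝ) ^ 2 := by
    filter_upwards [big_ev c₀ D' lam K l hc₀ n₁, hreg] with N h1 h2
    refine all_patterns μ δ hδ0 hδ1 K lam D' c c₀ hK hlam hD'1 hc0 hc₀ hc1 ?_ ?_ ?_ W hmono n₁ N (hWlow N) hX hind
      (fun p hp hp1 => hlaw p hp (hn1p.trans hp1)) h1 h2
    · have := hcle (D' * K) (by positivity) (by
        calc D' * K ≤ P3 := by rw [hP3]; linarith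
          _ ≤ P1 * P2 * P3 := le_mul_of_one_le_left (by linarith) (one_le_mul_of_one_le_of_one_le hP1' hP2'))
      linarith
    · have := hcle P1 (by linarith) (by
        calc P1 = P1 * 1 := (mul_one _).symm
          _ ≤ P1 * (P2 * P3) :=
            mul_le_mul_of_nonneg_left (one_le_mul_of_one_le_of_one_le hP2' hP3') (by linarith)
          _ = P1 * P2 * P3 := by ring)
      linarith
    · exact hcle P2 (by linarith) (by
        calc P2 = P2 * 1 := (mul_one _).symm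
          _ ≤ P2 * (P1 * P3) :=
            mul_le_mul_of_nonneg_left (one_le_mul_of_one_le_of_one_le hP1' hP3') (by linarith)
          _ = P1 * P2 * P3 := by ring)
  have hsum : Summable (fun N : ℕ => 1 / (N : ℝ) ^ 2) := Real.summable_one_div_nat_pow.2 (by norm_num)
  have hae1 := bc_sum μ (fun N => {ω | ∃ H, Adm c W N H ∧ ¬ Shown c W N c₀ X H ω}) _ (fun N => by positivity) hsum
    hbad
  have hae2 : ∀ᵐ ω ∂μ, ∀ p : ℕ, p.Prime → n₁ ≤ p → X p ω ≤ W p := by
    rw [ae_all_iff]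
    intro p
    by_cases hp : p.Prime ∧ n₁ ≤ p
    · have hWp : 1 ≤ W p := hn₃.trans (hmono (hn13.trans hp.2))
      filter_upwards [ae_mem μ (hX p) (hlaw p hp.1 (hn1p.trans hp.2)) hWp] with ω hω _ _
      have := hω.2
      omega
    · filter_upwards with ω h1 h2
      exact absurd ⟨h1, h2⟩ hp
  filter_upwards [hae1, hae2] with ω hω1 hω2
  set B₀ : ℕ := ∑ p ∈ range n₁, (p + 2 * X p ω) with hB₀
  have hN : Tendsto (fun N : ℕ => (N : ℝ)) atTop atTop := tendsto_natCast_atTop_atTop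
  filter_upwards [hω1, big_ev c₀ D' lam K l hc₀ n₁, hN.eventually_gt_atTop (4 / c₀ * (B₀ : ℝ))]
    with N h1 hbig h2 H hH
  have h3 : Shown c W N c₀ X H ω := by
    by_contra hcon
    exact h1 ⟨H, hH, hcon⟩
  obtain ⟨m, n, hmN, hmc, hnm, hmn, hshow⟩ := h3
  refine ⟨n, by omega, fun h hh => ?_⟩
  rw [← hshow h hh]
  constructor
  swap
  · rintro ⟨p, hp, h4⟩
    rw [mem_pr] at hp
    exact ⟨p, hp.2, h4⟩
  rintro ⟨p, hp, h4⟩
  refine ⟨p, ?_, h4⟩
  rw [mem_pr]
  obtain ⟨hHne, hHM, hH1, hH2⟩ := hH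
  obtain ⟨hL3, hLD, hL8, hN4, hN5, hN6, hN7, hN8⟩ := hbig
  have hk1 : (1 : ℝ) ≤ H.card := by exact_mod_cast hHne.card_pos
  have hB0' : (0 : ℝ) ≤ W N := Nat.cast_nonneg _
  have hLB : Real.log N ≤ c * W N := by nlinarith
  have hB8 : 8 * Real.log N ≤ W N := by nlinarith
  have hBpos : (0 : ℝ) < W N := by linarith
  have hlogB : 0 ≤ Real.log (W N) := Real.log_nonneg (by linarith)
  have hBN : (W N : ℝ) ≤ Real.exp (Real.log N / 8) := by
    conv_lhs => rw [← Real.exp_log hBpos]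
    apply Real.exp_le_exp.2
    nlinarith
  have hMr : (ML c W N : ℝ) ≤ c * min (W N : ℝ) ((Real.log N) ^ 2) := Nat.floor_le (by positivity)
  have hMB : (ML c W N : ℝ) ≤ c * W N := hMr.trans (mul_le_mul_of_nonneg_left (min_le_left _ _) hc0.le)
  have hM1 : ML c W N + 1 < W N := by
    have : (ML c W N : ℝ) + 1 < W N := by nlinarith
    exact_mod_cast this
  have hnB : B₀ < n := by
    have h5 : (m : ℝ) ≤ n + ML c W N + 1 := by exact_mod_cast hmn
    have h6 : (ML c W N : ℝ) + 1 < W N := by exact_mod_cast hM1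
    have h7 : c₀ / 4 * N < n := by linarith
    have h8 : (B₀ : ℝ) < c₀ / 4 * N := by
      rw [div_mul_eq_mul_div, div_lt_iff₀ hc₀] at h2
      rw [div_mul_eq_mul_div, lt_div_iff₀ (by norm_num)]
      linarith
    have h9 : (B₀ : ℝ) < n := h8.trans h7
    exact_mod_cast h9
  have hpn : n₁ ≤ p := by
    by_contra hcon
    have h5 : p + 2 * X p ω ≤ B₀ := by
      rw [hB₀]
      exact single_le_sum (f := fun p => p + 2 * X p ω) (fun i _ => Nat.zero_le _) (mem_range.2 (by omega))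
    omega
  have hXW := hω2 p hp hpn
  have hWB : W p ≤ W N := hmono (by omega)
  exact ⟨⟨by omega, by omega⟩, hp⟩

/-! ### The least even number which is not a gap -/

/-- the least positive even number which is not among the first `x` gaps of `S` -/
noncomputable def rr (S : Set ℕ) (x : ℕ) : ℕ :=
  sInf {t : ℕ | 0 < t ∧ Even t ∧ ∀ n < x, Nat.nth (fun m => m ∈ S) (n + 1) - Nat.nth (fun m => m ∈ S) n ≠ t}

theorem gap_index (S : Set ℕ) (a t : ℕ) (ht : 0 < t) (ha : a ∈ S) (hb : a + t ∈ S)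
    (hno : ∀ m, a < m → m < a + t → m ∉ S) :
    Nat.nth (fun m => m ∈ S) (Nat.count (fun m => m ∈ S) a + 1) - Nat.nth (fun m => m ∈ S) (Nat.count (fun m => m ∈ S) a) = t := by
  have h1 : ∀ k : ℕ, 1 ≤ k → k ≤ t → Nat.count (fun m => m ∈ S) (a + k) = Nat.count (fun m => m ∈ S) a + 1 := by
    intro k hk
    induction k, hk using Nat.le_induction with
    | base =>
      intro _
      rw [Nat.count_succ, if_pos ha]
    | succ k hk ih =>
      intro hkt
      rw [← Nat.add_assoc, Nat.count_succ, if_neg (hno (a + k) (by omega) (by omega)), add_zero]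
      exact ih (by omega)
  have h2 : Nat.nth (fun m => m ∈ S) (Nat.count (fun m => m ∈ S) a) = a := Nat.nth_count ha
  have h3 : Nat.nth (fun m => m ∈ S) (Nat.count (fun m => m ∈ S) (a + t)) = a + t := Nat.nth_count hb
  rw [h1 t ht le_rfl] at h3
  rw [h2, h3]
  omega

theorem rr_gt (S : Set ℕ) (x M : ℕ) (h : ∀ t : ℕ, 0 < t → Even t → t ≤ M →
    ∃ a : ℕ, a ∈ S ∧ a + t ∈ S ∧ a + t ≤ x ∧ ∀ m, a < m → m < a + t → m ∉ S) : M < rr S x := by
  set F : ℕ → ℕ := fun n => Nat.nth (fun m => m ∈ S) (n + 1) - Nat.nth (fun m => m ∈ S) n with hF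
  have hne : {t : ℕ | 0 < t ∧ Even t ∧ ∀ n < x, F n ≠ t}.Nonempty := by
    refine ⟨2 * (∑ n ∈ range x, F n + 1), by omega, even_two_mul _, fun n hn hc => ?_⟩
    have h1 : F n ≤ ∑ n ∈ range x, F n := single_le_sum (fun i _ => Nat.zero_le _) (mem_range.2 hn)
    omega
  have hmem := Nat.sInf_mem hne
  have hrr : rr S x = sInf {t : ℕ | 0 < t ∧ Even t ∧ ∀ n < x, F n ≠ t} := rfl
  rw [← hrr] at hmem
  obtain ⟨h1, h2, h3⟩ := hmem
  by_contra hcon
  obtain ⟨a, ha, hb, hx, hno⟩ := h (rr S x) h1 h2 (by omega)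
  have h4 := gap_index S a (rr S x) h1 ha hb hno
  refine h3 (Nat.count (fun m => m ∈ S) a) ?_ h4
  have : Nat.count (fun m => m ∈ S) a ≤ a := Nat.count_le _
  omega

/-- the least even number which is not a gap of the moved primes -/
theorem gaps (c : ℝ) (hc0 : 0 < c) (W : ℕ → ℕ)
    (hW1 : Tendsto (fun n : ℕ => (W n : ℝ) / Real.log n) atTop atTop)
    (hW2 : Tendsto (fun n : ℕ => Real.log (W n) / Real.log n) atTop (𝓝 0)) (S : Set ℕ)
    (hS : ∀ᶠ N : ℕ in atTop, ∀ H : Finset ℕ, Adm c W N H →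
        ∃ n : ℕ, n + ML c W N ≤ N ∧ ∀ h ≤ ML c W N, n + h ∈ S ↔ h ∈ H) :
    (∀ᶠ N : ℕ in atTop, c * min (W N : ℝ) ((Real.log N) ^ 2) < rr S N) ∧
      Tendsto (fun N : ℕ => (rr S N : ℝ) / Real.log N) atTop atTop := by
  have hN : Tendsto (fun N : ℕ => (N : ℝ)) atTop atTop := tendsto_natCast_atTop_atTop
  have hL : Tendsto (fun N : ℕ => Real.log (N : ℝ)) atTop atTop := Real.tendsto_log_atTop.comp hN
  have h1 : ∀ᶠ N : ℕ in atTop, c * min (W N : ℝ) ((Real.log N) ^ 2) < rr S N := by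
    filter_upwards [hS, hW1.eventually_ge_atTop (2 / c), hW2.eventually_lt_const (show (0 : ℝ) < c / 2 by positivity),
      hL.eventually_ge_atTop 1] with N g1 g2 g3 g4
    have g4' : 0 < Real.log (N : ℝ) := by linarith
    have h1 : ML c W N < rr S N := by
      apply rr_gt
      intro t ht hte htM
      have hcard : (({0, t} : Finset ℕ).card : ℝ) = 2 := by
        rw [card_pair (by omega)]
        norm_num
      obtain ⟨n, hn1, hn2⟩ := g1 {0, t} (by
        refine ⟨⟨0, by simp⟩, ?_, ?_, ?_⟩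
        · intro h hh
          rw [mem_insert, mem_singleton] at hh
          rcases hh with rfl | rfl
          · simp
          · exact ⟨Nat.even_iff.1 hte, htM⟩
        · rw [hcard]
          rw [div_le_div_iff₀ hc0 g4'] at g2
          linarith
        · rw [hcard]
          rw [div_lt_iff₀ g4'] at g3
          linarith)
      refine ⟨n, ?_, ?_, by omega, ?_⟩
      · have := (hn2 0 (by omega)).2 (by simp)
        simpa using this
      · exact (hn2 t htM).2 (by simp)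
      · intro m hm1 hm2 hmS
        have h5 := (hn2 (m - n) (by omega)).1 (by
          have : n + (m - n) = m := by omega
          rwa [this])
        rw [mem_insert, mem_singleton] at h5
        omega
    have h2 := Nat.lt_floor_add_one (c * min (W N : ℝ) ((Real.log N) ^ 2))
    have h3 : ((ML c W N + 1 : ℕ) : ℝ) ≤ rr S N := by exact_mod_cast h1
    push_cast at h3
    unfold ML at h3
    linarith
  refine ⟨h1, ?_⟩
  have h2' : Tendsto (fun N : ℕ => min ((W N : ℝ) / Real.log N) (Real.log N)) atTop atTop := by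
    rw [tendsto_atTop]
    intro b
    filter_upwards [hW1.eventually_ge_atTop b, hL.eventually_ge_atTop b] with N g1 g2
    exact le_min g1 g2
  have h2 : Tendsto (fun N : ℕ => c * min ((W N : ℝ) / Real.log N) (Real.log N)) atTop atTop :=
    h2'.const_mul_atTop hc0
  refine tendsto_atTop_mono' _ ?_ h2
  filter_upwards [h1, hL.eventually_ge_atTop 1] with N g1 g2
  rw [le_div_iff₀ (by linarith)]
  refine le_trans (le_of_eq ?_) g1.le
  rw [mul_assoc, min_mul_of_nonneg _ _ (by linarith), div_mul_cancel₀ _ (by linarith), ← sq]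

end Pool.Agent.R526.PT
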