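import Mathlib

set_option autoImplicit false

/-! # Independence of events which depend on disjoint sets of coordinates -/

namespace Pool.Agent.R526.PT

open MeasureTheory ProbabilityTheory Filter Finset

open scoped Classical

variable {Ω : Type} [MeasurableSpace Ω] (μ : Measure Ω) [IsProbabilityMeasure μ] {ξ : ℕ → Ω → ℕ}

/-- all the coordinates of `R` lie in prescribed sets -/
def Hit (ξ : ℕ → Ω → ℕ) (R : Finset ℕ) (T : ℕ → Set ℕ) : Set Ω := ⋂ p ∈ R, ξ p ⁻¹' T p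

theorem mem_Hit (R : Finset ℕ) (T : ℕ → Set ℕ) (ω : Ω) : ω ∈ Hit ξ R T ↔ ∀ p ∈ R, ξ p ω ∈ T p := by
  unfold Hit
  simp

theorem Hit_meas (hξ : ∀ p, Measurable (ξ p)) (R : Finset ℕ) (T : ℕ → Set ℕ) : MeasurableSet (Hit ξ R T) :=
  Finset.measurableSet_biInter _ fun p _ => hξ p (Set.to_countable _).measurableSet

theorem Hit_real (hind : iIndepFun ξ μ) (R : Finset ℕ) (T : ℕ → Set ℕ) :
    μ.real (Hit ξ R T) = ∏ p ∈ R, μ.real (ξ p ⁻¹' T p) := by
  unfold Hit
  rw [Measure.real, hind.measure_inter_preimage_eq_mul R (fun p _ => (Set.to_countable _).measurableSet),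
    ENNReal.toReal_prod]
  rfl

theorem two (hξ : ∀ p, Measurable (ξ p)) (hind : iIndepFun ξ μ) {J : Finset ℕ} (R : ℕ → Finset ℕ)
    (T : ℕ → ℕ → Set ℕ) (a : ℕ) (hd : ∀ j ∈ J, Disjoint (R a) (R j)) :
    μ.real ((Hit ξ (R a) (T a))ᶜ ∩ ⋂ j ∈ J, (Hit ξ (R j) (T j))ᶜ) =
      μ.real ((Hit ξ (R a) (T a))ᶜ) * μ.real (⋂ j ∈ J, (Hit ξ (R j) (T j))ᶜ) := by
  set U : Finset ℕ := J.biUnion R with hU
  have hdis : Disjoint (R a) U := by
    rw [hU, Finset.disjoint_biUnion_right]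
    exact hd
  have hI := hind.indepFun_finset (R a) U hdis hξ
  set A : Set (R a → ℕ) := {v | ¬ ∀ p (hp : p ∈ R a), v ⟨p, hp⟩ ∈ T a p} with hA
  set B : Set (U → ℕ) := {v | ∀ j (hj : j ∈ J), ¬ ∀ p (hp : p ∈ R j),
    v ⟨p, by rw [hU, mem_biUnion]; exact ⟨j, hj, hp⟩⟩ ∈ T j p} with hB
  have h1 : (Hit ξ (R a) (T a))ᶜ = (fun ω (i : R a) => ξ i ω) ⁻¹' A := by
    ext ω
    rw [Set.mem_compl_iff, mem_Hit, Set.mem_preimage, hA, Set.mem_setOf_eq]
  have h2 : (⋂ j ∈ J, (Hit ξ (R j) (T j))ᶜ) = (fun ω (i : U) => ξ i ω) ⁻¹' B := by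
    ext ω
    rw [Set.mem_preimage, hB, Set.mem_setOf_eq]
    simp only [Set.mem_iInter, Set.mem_compl_iff, mem_Hit]
  rw [h1, h2, Measure.real, Measure.real, Measure.real,
    hI.measure_inter_preimage_eq_mul A B (Set.to_countable _).measurableSet (Set.to_countable _).measurableSet,
    ENNReal.toReal_mul]

/-- the probability that none of the events happens -/
theorem none_real (hξ : ∀ p, Measurable (ξ p)) (hind : iIndepFun ξ μ) (J : Finset ℕ) (R : ℕ → Finset ℕ)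
    (T : ℕ → ℕ → Set ℕ) (hd : ∀ i ∈ J, ∀ j ∈ J, i ≠ j → Disjoint (R i) (R j)) :
    μ.real (⋂ j ∈ J, (Hit ξ (R j) (T j))ᶜ) = ∏ j ∈ J, (1 - μ.real (Hit ξ (R j) (T j))) := by
  induction J using Finset.induction_on with
  | empty => simp
  | insert a J ha ih =>
    rw [Finset.prod_insert ha, Finset.set_biInter_insert,
      two μ hξ hind R T a (fun j hj => hd a (mem_insert_self _ _) j (mem_insert_of_mem hj)
        (fun h => ha (h ▸ hj))), ih (fun i hi j hj hij => hd i (mem_insert_of_mem hi) j (mem_insert_of_mem hj) hij)]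
    congr 1
    rw [measureReal_compl (Hit_meas hξ _ _), probReal_univ]

theorem none_le (hξ : ∀ p, Measurable (ξ p)) (hind : iIndepFun ξ μ) (J : Finset ℕ) (R : ℕ → Finset ℕ)
    (T : ℕ → ℕ → Set ℕ) (hd : ∀ i ∈ J, ∀ j ∈ J, i ≠ j → Disjoint (R i) (R j)) (q : ℝ)
    (hq : ∀ j ∈ J, q ≤ μ.real (Hit ξ (R j) (T j))) :
    μ.real (⋂ j ∈ J, (Hit ξ (R j) (T j))ᶜ) ≤ Real.exp (-(J.card * q)) := by
  rw [none_real μ hξ hind J R T hd]
  calc ∏ j ∈ J, (1 - μ.real (Hit ξ (R j) (T j))) ≤ ∏ _j ∈ J, Real.exp (-q) := by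
        apply Finset.prod_le_prod
        · intro j _
          have := prob_le_one (μ := μ) (s := Hit ξ (R j) (T j))
          have h2 : μ.real (Hit ξ (R j) (T j)) ≤ 1 := measureReal_le_one
          linarith
        · intro j hj
          have h1 := hq j hj
          have h2 := Real.add_one_le_exp (-q)
          linarith
    _ = Real.exp (-(J.card * q)) := by
        rw [prod_const, ← Real.exp_nat_mul]
        congr 1
        ring

end Pool.Agent.R526.PT
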