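import Pool.Agent.H622R3.SP.Good

set_option autoImplicit false

/-! # The primes near a regular position -/

namespace Pool.Agent.R526.PT

open Filter Finset Pool.Agent.H622R3.SP

open scoped Classical

/-- the primes of `(u, v]` -/
noncomputable def pr (u v : ℕ) : Finset ℕ := (Ioc u v).filter (fun p => p.Prime)

theorem mem_pr {u v p : ℕ} : p ∈ pr u v ↔ (u < p ∧ p ≤ v) ∧ p.Prime := by
  unfold pr
  rw [mem_filter, mem_Ioc]

theorem card_le_cb (F : Finset ℕ) (x H : ℝ) (h : ∀ p ∈ F, p.Prime ∧ x - H < p ∧ (p : ℝ) < x) :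
    F.card ≤ cb x H := by
  unfold cb
  rw [← Set.ncard_coe_finset]
  exact Set.ncard_le_ncard (fun p hp => h p hp) (cb_finite x H)

theorem cb_split (m a M : ℕ) (H : ℝ) (hH : (M : ℝ) + 4 ≤ H) :
    cb ((m : ℝ) + 1 / 2) a ≤ (pr (m - a) (m - M - 3)).card + cb ((m : ℝ) + 1 / 2) H := by
  unfold cb
  rw [← Set.ncard_coe_finset]
  refine le_trans (Set.ncard_le_ncard ?_ ?_) (Set.ncard_union_le _ _)
  · rintro p ⟨hp, h1, h2⟩
    have h3 : p ≤ m := by
      have h4 : (p : ℝ) < ((m + 1 : ℕ) : ℝ) := by push_cast; linarith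
      have h5 : p < m + 1 := by exact_mod_cast h4
      omega
    have h4 : m < p + a := by
      have h5 : (m : ℝ) < ((p + a : ℕ) : ℝ) := by push_cast; linarith
      exact_mod_cast h5
    by_cases h5 : p + M + 3 ≤ m
    · left
      rw [mem_coe, mem_pr]
      exact ⟨⟨by have := hp.two_le; omega, by omega⟩, hp⟩
    · right
      refine ⟨hp, ?_, h2⟩
      have h6 : (m : ℝ) < ((p + M + 3 : ℕ) : ℝ) := by exact_mod_cast (by omega : m < p + M + 3)
      push_cast at h6
      linarith
  · exact (Finset.finite_toSet _).union (cb_finite _ _)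

/-- the data at a regular position -/
theorem local_data (K lam : ℝ) (hK : 0 < K) (hlam : 0 < lam) (m a B M : ℕ) (L : ℝ) (hL : 0 < L)
    (hreg : AS (1 / 2) K lam ((m : ℝ) + 1 / 2))
    (hl1 : L / 2 ≤ Real.log ((m : ℝ) + 1 / 2)) (hl2 : Real.log ((m : ℝ) + 1 / 2) ≤ L)
    (haK : K * L ≤ a) (haB : a ≤ B) (hMa : M + 4 ≤ a) (hB : 3 * B + 2 ≤ m) :
    ∃ n : ℕ, n % 2 = 1 ∧ n + M ≤ m ∧ m ≤ n + M + 1 ∧
      (a : ℝ) / (2 * L) - 2 * lam * ((M : ℝ) + 4 + K * L) / L ≤ ((pr (m - a) (m - M - 3)).card : ℝ) ∧
      (∀ q ∈ pr (m - a) (m - M - 3), q < n ∧ n + M ≤ q + 2 * a) ∧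
      pr (m - a) (m - M - 3) ⊆ pr (m - 3 * B) m ∧
      (((pr (m - 3 * B) m).filter (fun p => n ≤ p ∧ p ≤ n + M)).card : ℝ) ≤
        2 * lam * ((M : ℝ) + 4 + K * L) / L ∧
      ((pr (m - 3 * B) m).card : ℝ) ≤ 2 * lam * (3 * B + 1) / L := by
  set x : ℝ := (m : ℝ) + 1 / 2 with hx
  have hlog0 : 0 < Real.log x := by linarith
  have hBr : (3 : ℝ) * B + 2 ≤ m := by exact_mod_cast hB
  have haBr : (a : ℝ) ≤ B := by exact_mod_cast haB
  have hMar : (M : ℝ) + 4 ≤ a := by exact_mod_cast hMa
  have hM0 : (0 : ℝ) ≤ M := Nat.cast_nonneg M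
  set H2 : ℝ := max ((M : ℝ) + 4) (K * L) with hH2
  have hKx : K * Real.log x ≤ K * L := mul_le_mul_of_nonneg_left hl2 hK.le
  have hcb2 : (cb x H2 : ℝ) ≤ 2 * lam * ((M : ℝ) + 4 + K * L) / L := by
    have h1 := (hreg H2 (hKx.trans (le_max_right _ _)) (max_le (by linarith) (by linarith))).2
    refine h1.trans ?_
    have h2 : H2 ≤ (M : ℝ) + 4 + K * L := max_le (by nlinarith [mul_pos hK hL]) (by linarith)
    rw [div_le_div_iff₀ hlog0 hL]
    have h3 : 0 ≤ (M : ℝ) + 4 + K * L := by positivity
    calc lam * H2 * L ≤ lam * ((M : ℝ) + 4 + K * L) * (2 * Real.log x) := by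
          apply mul_le_mul (mul_le_mul_of_nonneg_left h2 hlam.le) (by linarith) hL.le (by positivity)
      _ = _ := by ring
  refine ⟨m - M - (m - M + 1) % 2, by omega, by omega, by omega, ?_, ?_, ?_, ?_, ?_⟩
  · have h1 := (hreg a (hKx.trans haK) (by linarith)).1
    have h2 : ((cb x a : ℕ) : ℝ) ≤ ((pr (m - a) (m - M - 3)).card : ℝ) + cb x H2 := by
      exact_mod_cast cb_split m a M H2 (le_max_left _ _)
    have h3 : (a : ℝ) / (2 * L) ≤ (1 - 1 / 2) * a / Real.log x := by
      rw [div_le_div_iff₀ (by positivity) hlog0]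
      have : (0 : ℝ) ≤ a := Nat.cast_nonneg a
      nlinarith
    linarith
  · intro q hq
    rw [mem_pr] at hq
    omega
  · intro q hq
    rw [mem_pr] at hq ⊢
    exact ⟨by omega, hq.2⟩
  · refine le_trans ?_ hcb2
    have h1 := card_le_cb ((pr (m - 3 * B) m).filter (fun p => m - M - (m - M + 1) % 2 ≤ p ∧
      p ≤ m - M - (m - M + 1) % 2 + M)) x H2 (by
        intro p hp
        rw [mem_filter, mem_pr] at hp
        refine ⟨hp.1.2, ?_, ?_⟩
        · have h2 : m ≤ p + M + 1 := by omega
          have h3 : (m : ℝ) ≤ p + M + 1 := by exact_mod_cast h2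
          have h4 : (M : ℝ) + 4 ≤ H2 := le_max_left _ _
          linarith
        · have h2 : (p : ℝ) ≤ m := by exact_mod_cast hp.1.1.2
          linarith)
    exact_mod_cast h1
  · have h0 : K * Real.log x ≤ 3 * B + 1 := by linarith
    have h1 := (hreg (3 * B + 1) h0 (by linarith)).2
    have h2 := card_le_cb (pr (m - 3 * B) m) x (3 * B + 1) (by
      intro p hp
      rw [mem_pr] at hp
      refine ⟨hp.2, ?_, ?_⟩
      · have h2 : m ≤ p + 3 * B := by omega
        have h3 : (m : ℝ) ≤ p + 3 * B := by exact_mod_cast h2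
        linarith
      · have h2 : (p : ℝ) ≤ m := by exact_mod_cast hp.1.2
        linarith)
    have h3 : ((pr (m - 3 * B) m).card : ℝ) ≤ cb x (3 * B + 1) := by exact_mod_cast h2
    refine h3.trans (h1.trans ?_)
    rw [div_le_div_iff₀ hlog0 hL]
    have h4 : (0 : ℝ) ≤ 3 * B + 1 := by positivity
    calc lam * (3 * B + 1) * L ≤ lam * (3 * B + 1) * (2 * Real.log x) :=
          mul_le_mul_of_nonneg_left (by linarith) (by positivity)
      _ = _ := by ring

/-- a large separated subset -/
theorem separated (S : Finset ℕ) (V : ℕ) (hV : 1 ≤ V) :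
    ∃ J ⊆ S, (∀ i ∈ J, ∀ j ∈ J, i < j → i + V ≤ j) ∧ S.card ≤ V * J.card := by
  induction hn : S.card using Nat.strong_induction_on generalizing S with
  | _ n ih =>
    rcases S.eq_empty_or_nonempty with h | h
    · refine ⟨∅, empty_subset _, by simp, ?_⟩
      rw [h] at hn
      simp at hn
      omega
    · set s := S.min' h with hs
      have hsS : s ∈ S := S.min'_mem h
      set S' := S.filter (fun j => s + V ≤ j) with hS'
      have hlt : S'.card < n := by
        rw [← hn]
        apply card_lt_card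
        rw [ssubset_iff_of_subset (filter_subset _ _)]
        exact ⟨s, hsS, by rw [mem_filter]; omega⟩
      obtain ⟨J, hJ, h1, h2⟩ := ih S'.card hlt S' rfl
      refine ⟨insert s J, ?_, ?_, ?_⟩
      · intro j hj
        rw [mem_insert] at hj
        rcases hj with rfl | hj
        · exact hsS
        · exact (mem_filter.1 (hJ hj)).1
      · intro i hi j hj hij
        rw [mem_insert] at hi hj
        rcases hi with rfl | hi
        · rcases hj with rfl | hj
          · omega
          · exact (mem_filter.1 (hJ hj)).2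
        · rcases hj with rfl | hj
          · have := (mem_filter.1 (hJ hi)).2
            omega
          · exact h1 i hi j hj hij
      · have hsJ : s ∉ J := by
          intro hc
          have := (mem_filter.1 (hJ hc)).2
          omega
        rw [card_insert_of_notMem hsJ]
        have h3 : S.card ≤ V + S'.card := by
          have h4 : S ⊆ Ico s (s + V) ∪ S' := by
            intro j hj
            rw [mem_union, mem_Ico, hS', mem_filter]
            have : s ≤ j := S.min'_le j hj
            rcases Nat.lt_or_ge j (s + V) with h5 | h5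
            · exact Or.inl ⟨this, h5⟩
            · exact Or.inr ⟨hj, h5⟩
          have h5 := (card_le_card h4).trans (card_union_le _ _)
          rw [Nat.card_Ico] at h5
          omega
        rw [hn] at h3
        calc n ≤ V + S'.card := h3
          _ ≤ V + V * J.card := by omega
          _ = V * (J.card + 1) := by ring

end Pool.Agent.R526.PT
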