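import Pool.Agent.R526.PT.Ind
import Pool.Agent.R526.RS.Law

set_option autoImplicit false

/-! # The probability that a window shows a given pattern -/

namespace Pool.Agent.R526.PT

open MeasureTheory ProbabilityTheory Filter Finset Pool.Agent.R526.RS

open scoped Classical

variable {Ω : Type} [MeasurableSpace Ω] (μ : Measure Ω) [IsProbabilityMeasure μ]

/-- the half shifts of `p` into the window -/
theorem half_card (p n M : ℕ) (W : ℕ) :
    (((Icc 1 W).filter (fun j => n ≤ p + 2 * j ∧ p + 2 * j ≤ n + M)).card : ℝ) ≤ (M + 2) / 2 := by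
  have h1 : (Icc 1 W).filter (fun j => n ≤ p + 2 * j ∧ p + 2 * j ≤ n + M) ⊆
      Icc ((n - p + 1) / 2) ((n - p + 1) / 2 + M / 2) := by
    intro j hj
    rw [mem_filter] at hj
    rw [mem_Icc]
    omega
  have h2 := card_le_card h1
  rw [Nat.card_Icc] at h2
  have h3 : (n - p + 1) / 2 + M / 2 + 1 - (n - p + 1) / 2 = M / 2 + 1 := by omega
  rw [h3] at h2
  have h4 : ((M / 2 + 1 : ℕ) : ℝ) ≤ (M + 2) / 2 := by
    push_cast
    have : ((M / 2 : ℕ) : ℝ) ≤ (M : ℝ) / 2 := Nat.cast_div_le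
    linarith
  exact (by exact_mod_cast h2 : (_ : ℝ) ≤ ((M / 2 + 1 : ℕ) : ℝ)).trans h4

theorem away {X : Ω → ℕ} {W : ℕ} {δ : ℝ} (hX : Measurable X) (h : Law μ X 0 W δ) (hW : 1 ≤ W) (hδ0 : 0 < δ)
    (hδ1 : δ ≤ 1) (p n M : ℕ) :
    (if n ≤ p ∧ p ≤ n + M then δ else 1) * (1 - ((M : ℝ) + 2) / (2 * W)) ≤
      μ.real (X ⁻¹' {j | ¬ (n ≤ p + 2 * j ∧ p + 2 * j ≤ n + M)}) := by
  have hWr : (0 : ℝ) < W := by exact_mod_cast hW
  have hmeas : MeasurableSet (X ⁻¹' {j | n ≤ p + 2 * j ∧ p + 2 * j ≤ n + M}) :=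
    hX (Set.to_countable _).measurableSet
  have hcompl : X ⁻¹' {j | ¬ (n ≤ p + 2 * j ∧ p + 2 * j ≤ n + M)} =
      (X ⁻¹' {j | n ≤ p + 2 * j ∧ p + 2 * j ≤ n + M})ᶜ := rfl
  rw [hcompl, measureReal_compl hmeas, probReal_univ]
  set F : Finset ℕ := (Icc 1 W).filter (fun j => n ≤ p + 2 * j ∧ p + 2 * j ≤ n + M) with hF
  have h0 : μ.real (X ⁻¹' {j | n ≤ p + 2 * j ∧ p + 2 * j ≤ n + M}) ≤
      μ.real {ω | X ω ∈ (if n ≤ p ∧ p ≤ n + M then insert 0 F else F)} := by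
    have h1 := ae_mem μ hX h hW
    apply ENNReal.toReal_mono (measure_ne_top _ _)
    apply measure_mono_ae
    filter_upwards [h1] with ω hω hmem
    change X ω ∈ (if n ≤ p ∧ p ≤ n + M then insert 0 F else F)
    have h2 : n ≤ p + 2 * X ω ∧ p + 2 * X ω ≤ n + M := hmem
    rcases Nat.eq_zero_or_pos (X ω) with h3 | h3
    · rw [h3] at h2 ⊢
      rw [if_pos (by omega)]
      exact mem_insert_self _ _
    · have h4 : X ω ∈ F := by
        rw [hF, mem_filter, mem_Icc]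
        omega
      split_ifs
      · exact mem_insert_of_mem h4
      · exact h4
  have hFs : ∑ m ∈ F, μ.real {ω | X ω = m} ≤ δ * (((M : ℝ) + 2) / (2 * W)) := by
    have h1 : ∀ m ∈ F, μ.real {ω | X ω = m} = δ / W := by
      intro m hm
      rw [hF, mem_filter, mem_Icc] at hm
      have := h.2 m hm.1.1 hm.1.2
      rwa [zero_add] at this
    rw [sum_congr rfl h1, sum_const, nsmul_eq_mul]
    have h2 := half_card p n M W
    calc (F.card : ℝ) * (δ / W) ≤ ((M + 2) / 2) * (δ / W) := by gcongr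
      _ = _ := by field_simp
  split_ifs with hc
  · rw [if_pos hc] at h0
    rw [real_union μ hX, sum_insert (by rw [hF, mem_filter, mem_Icc]; omega), h.1] at h0
    nlinarith
  · rw [if_neg hc] at h0
    rw [real_union μ hX] at h0
    have h5 : 0 ≤ ((M : ℝ) + 2) / (2 * W) := by positivity
    nlinarith

theorem one {X : ℕ → Ω → ℕ} (hX : ∀ p, Measurable (X p)) (hind : iIndepFun X μ) (δ : ℝ) (hδ0 : 0 < δ)
    (hδ1 : δ ≤ 1) (W : ℕ → ℕ) (a B n M : ℕ) (R Q H : Finset ℕ)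
    (ha : 1 ≤ a) (hy : (M : ℝ) + 2 ≤ 2 * a) (hn : n % 2 = 1)
    (hR : ∀ p ∈ R, p % 2 = 1 ∧ Law μ (X p) 0 (W p) δ ∧ a ≤ W p ∧ W p ≤ B)
    (hQ : Q ⊆ R) (hQn : ∀ q ∈ Q, q < n ∧ n + M ≤ q + 2 * a) (hHQ : H.card ≤ Q.card)
    (hH : ∀ h ∈ H, h % 2 = 0 ∧ h ≤ M) :
    ∃ T : ℕ → Set ℕ, (δ / B) ^ H.card * δ ^ (R.filter (fun p => n ≤ p ∧ p ≤ n + M)).card *
      (1 - ((M : ℝ) + 2) / (2 * a)) ^ R.card ≤ μ.real (Hit X R T) ∧
      ∀ ω ∈ Hit X R T, ∀ h ≤ M, (∃ p ∈ R, p + 2 * X p ω = n + h) ↔ h ∈ H := by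
  obtain ⟨Q', hQ', hcard⟩ := Finset.exists_subset_card_eq hHQ
  set e := Finset.equivOfCardEq hcard with he
  set T : ℕ → Set ℕ := fun p => if hp : p ∈ Q' then {(n + (e ⟨p, hp⟩ : ℕ) - p) / 2} else
    {j | ¬ (n ≤ p + 2 * j ∧ p + 2 * j ≤ n + M)} with hT
  have haR : (0 : ℝ) < a := by exact_mod_cast ha
  have hyy : 0 ≤ 1 - ((M : ℝ) + 2) / (2 * a) := by
    rw [sub_nonneg, div_le_one (by positivity)]
    exact hy
  have hyy1 : 1 - ((M : ℝ) + 2) / (2 * a) ≤ 1 := by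
    have : 0 ≤ ((M : ℝ) + 2) / (2 * a) := by positivity
    linarith
  refine ⟨T, ?_, ?_⟩
  · rw [Hit_real μ hind]
    have hterm : ∀ p ∈ R, (if p ∈ Q' then δ / B else 1) * (if n ≤ p ∧ p ≤ n + M then δ else 1) *
        (1 - ((M : ℝ) + 2) / (2 * a)) ≤ μ.real (X p ⁻¹' T p) := by
      intro p hp
      obtain ⟨h1, h2, h3, h4⟩ := hR p hp
      have hWp : (0 : ℝ) < W p := by exact_mod_cast (by omega : 0 < W p)
      have hBp : (0 : ℝ) < B := by exact_mod_cast (by omega : 0 < B)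
      have hfac : (if n ≤ p ∧ p ≤ n + M then δ else 1 : ℝ) ≤ 1 := by split_ifs <;> [exact hδ1; exact le_rfl]
      have hfac0 : 0 ≤ (if n ≤ p ∧ p ≤ n + M then δ else 1 : ℝ) := by
        split_ifs <;> [exact hδ0.le; exact zero_le_one]
      by_cases hpQ : p ∈ Q'
      · rw [if_pos hpQ]
        have h5 : T p = {(n + (e ⟨p, hpQ⟩ : ℕ) - p) / 2} := by rw [hT]; simp only [dif_pos hpQ]
        rw [h5]
        obtain ⟨h6, h7⟩ := hQn p (hQ' hpQ)
        have h8 := hH _ (e ⟨p, hpQ⟩).2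
        have h9 := h2.2 ((n + (e ⟨p, hpQ⟩ : ℕ) - p) / 2) (by omega) (by omega)
        rw [zero_add] at h9
        have h10 : μ.real (X p ⁻¹' {(n + (e ⟨p, hpQ⟩ : ℕ) - p) / 2}) = δ / W p := h9
        rw [h10]
        have h11 : δ / B ≤ δ / W p := by
          apply div_le_div_of_nonneg_left hδ0.le hWp
          exact_mod_cast h4
        refine le_trans ?_ h11
        have h12 : 0 ≤ δ / B := by positivity
        calc δ / B * _ * _ ≤ δ / B * 1 * 1 := by gcongr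
          _ = δ / B := by ring
      · rw [if_neg hpQ, one_mul]
        have h5 : T p = {j | ¬ (n ≤ p + 2 * j ∧ p + 2 * j ≤ n + M)} := by rw [hT]; simp only [dif_neg hpQ]
        rw [h5]
        refine le_trans ?_ (away μ (hX p) h2 (by omega) hδ0 hδ1 p n M)
        apply mul_le_mul_of_nonneg_left _ hfac0
        have h6 : ((M : ℝ) + 2) / (2 * W p) ≤ ((M : ℝ) + 2) / (2 * a) := by
          apply div_le_div_of_nonneg_left (by positivity) (by positivity)
          have : (a : ℝ) ≤ W p := by exact_mod_cast h3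
          linarith
        linarith
    refine le_trans ?_ (Finset.prod_le_prod (fun p hp => ?_) hterm)
    · rw [prod_mul_distrib, prod_mul_distrib, prod_ite, prod_ite]
      simp only [prod_const, one_pow, mul_one]
      have h1 : R.filter (fun p => p ∈ Q') = Q' := by
        ext p
        rw [mem_filter]
        exact ⟨fun h => h.2, fun h => ⟨hQ (hQ' h), h⟩⟩
      rw [h1, hcard]
    · have h1 : (0 : ℝ) ≤ (if p ∈ Q' then δ / B else 1) := by split_ifs <;> positivity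
      have h2 : 0 ≤ (if n ≤ p ∧ p ≤ n + M then δ else 1 : ℝ) := by
        split_ifs <;> [exact hδ0.le; exact zero_le_one]
      exact mul_nonneg (mul_nonneg h1 h2) hyy
  · intro ω hω h hh
    rw [mem_Hit] at hω
    constructor
    · rintro ⟨p, hp, hpe⟩
      have h1 := hω p hp
      by_cases hpQ : p ∈ Q'
      · have h5 : T p = {(n + (e ⟨p, hpQ⟩ : ℕ) - p) / 2} := by rw [hT]; simp only [dif_pos hpQ]
        rw [h5, Set.mem_singleton_iff] at h1
        obtain ⟨h6, h7⟩ := hQn p (hQ' hpQ)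
        have h8 := hH _ (e ⟨p, hpQ⟩).2
        have h9 := (hR p hp).1
        have h10 : h = (e ⟨p, hpQ⟩ : ℕ) := by omega
        rw [h10]
        exact (e ⟨p, hpQ⟩).2
      · have h5 : T p = {j | ¬ (n ≤ p + 2 * j ∧ p + 2 * j ≤ n + M)} := by rw [hT]; simp only [dif_neg hpQ]
        rw [h5] at h1
        exact absurd ⟨by omega, by omega⟩ h1
    · intro hhH
      set q := e.symm ⟨h, hhH⟩ with hq
      have h5 : T q = {(n + (e ⟨q, q.2⟩ : ℕ) - q) / 2} := by rw [hT]; simp only [dif_pos q.2]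
      have h1 := hω q (hQ (hQ' q.2))
      rw [h5, Set.mem_singleton_iff] at h1
      have h2 : (e ⟨q, q.2⟩ : ℕ) = h := by rw [hq]; simp
      rw [h2] at h1
      obtain ⟨h6, h7⟩ := hQn q (hQ' q.2)
      have h8 := hH h hhH
      have h9 := (hR q (hQ (hQ' q.2))).1
      exact ⟨q, hQ (hQ' q.2), by omega⟩

end Pool.Agent.R526.PT
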