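import Pool.Agent.R526.PT.One
import Pool.Agent.R526.PT.Loc

set_option autoImplicit false

/-! # All patterns at one scale -/

namespace Pool.Agent.R526.PT

open MeasureTheory ProbabilityTheory Filter Finset Pool.Agent.R526.RS Pool.Agent.H622R3.SP

open scoped Classical

/-- the length of the window -/
noncomputable def ML (c : ℝ) (W : ℕ → ℕ) (N : ℕ) : ℕ := ⌊c * min (W N : ℝ) ((Real.log N) ^ 2)⌋₊

/-- admissible patterns -/
def Adm (c : ℝ) (W : ℕ → ℕ) (N : ℕ) (H : Finset ℕ) : Prop :=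
  H.Nonempty ∧ (∀ h ∈ H, h % 2 = 0 ∧ h ≤ ML c W N) ∧ (H.card : ℝ) * Real.log N ≤ c * W N ∧
    (H.card : ℝ) * Real.log (W N) ≤ c * Real.log N

variable {Ω : Type} [MeasurableSpace Ω] (μ : Measure Ω) [IsProbabilityMeasure μ]

/-- the pattern is shown near `m` -/
def Shown (c : ℝ) (W : ℕ → ℕ) (N : ℕ) (c₀ : ℝ) (X : ℕ → Ω → ℕ) (H : Finset ℕ) (ω : Ω) : Prop :=
  ∃ m n : ℕ, m < N ∧ c₀ / 2 * N ≤ m ∧ n + ML c W N ≤ m ∧ m ≤ n + ML c W N + 1 ∧
    ∀ h ≤ ML c W N, (∃ p ∈ pr (m - 3 * W N) m, p + 2 * X p ω = n + h) ↔ h ∈ H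

theorem dbl (W : ℕ → ℕ) (D : ℝ) (hD : 1 ≤ D) (n₁ : ℕ) (h : ∀ n, n₁ ≤ n → (W (2 * n) : ℝ) ≤ D * W n)
    (j p : ℕ) (hp : n₁ ≤ p) : (W (2 ^ j * p) : ℝ) ≤ D ^ j * W p := by
  induction j with
  | zero => simp
  | succ j ih =>
    have h1 : 2 ^ (j + 1) * p = 2 * (2 ^ j * p) := by ring
    have h2 : n₁ ≤ 2 ^ j * p := by
      have : 1 ≤ 2 ^ j := Nat.one_le_two_pow
      nlinarith
    rw [h1]
    calc (W (2 * (2 ^ j * p)) : ℝ) ≤ D * W (2 ^ j * p) := h _ h2
      _ ≤ D * (D ^ j * W p) := mul_le_mul_of_nonneg_left ih (by linarith)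
      _ = D ^ (j + 1) * W p := by ring

/-- the cost of one window -/
theorem cost_bound (δ : ℝ) (hδ0 : 0 < δ) (hδ1 : δ ≤ 1) (K lam D' c L : ℝ) (hK : 0 < K) (hlam : 0 < lam)
    (hD' : 1 ≤ D') (hc : 0 < c) (B a M k N1 NR : ℕ)
    (hc4 : c * (1 + Real.log (1 / δ) + 2 * lam * Real.log (1 / δ) + 8 * lam * D') ≤ 1 / 8)
    (hL1 : 1 ≤ L) (hL2 : 2 * lam * (4 + K) * Real.log (1 / δ) + 16 * lam * D' ≤ L / 8)
    (hB3 : Real.exp 1 ≤ B) (haD : (B : ℝ) / D' ≤ a) (hMa : M + 4 ≤ a) (hML : (M : ℝ) ≤ c * L ^ 2)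
    (hk : (k : ℝ) * Real.log B ≤ c * L)
    (hN1 : (N1 : ℝ) ≤ 2 * lam * ((M : ℝ) + 4 + K * L) / L) (hNR : (NR : ℝ) ≤ 2 * lam * (3 * B + 1) / L) :
    Real.exp (-(L / 4)) ≤ (δ / B) ^ k * δ ^ N1 * (1 - ((M : ℝ) + 2) / (2 * a)) ^ NR := by
  have hL0 : 0 < L := by linarith
  set l := Real.log (1 / δ) with hl
  have hl0 : 0 ≤ l := Real.log_nonneg (by rw [le_div_iff₀ hδ0]; linarith)
  have hδl : δ = Real.exp (-l) := by
    rw [hl, one_div, Real.log_inv, neg_neg, Real.exp_log hδ0]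
  have hB0 : (0 : ℝ) < B := lt_of_lt_of_le (Real.exp_pos 1) hB3
  have hlB : 1 ≤ Real.log B := by
    rw [Real.le_log_iff_exp_le hB0]
    exact hB3
  have ha0 : (0 : ℝ) < a := lt_of_lt_of_le (by positivity) haD
  have hMar : (M : ℝ) + 4 ≤ a := by exact_mod_cast hMa
  have hM0 : (0 : ℝ) ≤ M := Nat.cast_nonneg M
  -- the three factors
  have f1 : Real.exp (-(c * L * (1 + l))) ≤ (δ / B) ^ k := by
    have h1 : δ / B = Real.exp (-(l + Real.log B)) := by
      rw [neg_add, Real.exp_add, ← hδl, Real.exp_neg, Real.exp_log hB0]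
      rfl
    rw [h1, ← Real.exp_nat_mul]
    apply Real.exp_le_exp.2
    have h2 : (k : ℝ) ≤ c * L := by
      have : (k : ℝ) * 1 ≤ (k : ℝ) * Real.log B := mul_le_mul_of_nonneg_left hlB (Nat.cast_nonneg k)
      linarith
    nlinarith
  have f2 : Real.exp (-(2 * lam * l * (c * L) + 2 * lam * (4 + K) * l)) ≤ δ ^ N1 := by
    have h1 : δ ^ N1 = Real.exp (-(N1 * l)) := by
      conv_lhs => rw [hδl]
      rw [← Real.exp_nat_mul]
      congr 1
      ring
    rw [h1]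
    apply Real.exp_le_exp.2
    have h2 : (N1 : ℝ) ≤ 2 * lam * (c * L + (4 + K)) := by
      refine hN1.trans ?_
      rw [div_le_iff₀ hL0]
      have : (M : ℝ) + 4 + K * L ≤ (c * L + (4 + K)) * L := by nlinarith
      calc 2 * lam * ((M : ℝ) + 4 + K * L) ≤ 2 * lam * ((c * L + (4 + K)) * L) :=
            mul_le_mul_of_nonneg_left this (by positivity)
        _ = _ := by ring
    have h3 := mul_le_mul_of_nonneg_right h2 hl0
    nlinarith
  have f3 : Real.exp (-(8 * lam * D' * (c * L) + 16 * lam * D')) ≤ (1 - ((M : ℝ) + 2) / (2 * a)) ^ NR := by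
    set y : ℝ := ((M : ℝ) + 2) / (2 * a) with hy
    have hy0 : 0 ≤ y := by positivity
    have hy1 : y ≤ 1 / 2 := by
      rw [hy, div_le_div_iff₀ (by positivity) (by norm_num)]
      linarith
    have h1 : Real.exp (-(2 * y)) ≤ 1 - y := by
      have h2 : Real.exp (-(2 * y)) ≤ 1 / (1 + 2 * y) := by
        rw [Real.exp_neg, ← one_div]
        apply one_div_le_one_div_of_le (by linarith)
        have := Real.add_one_le_exp (2 * y)
        linarith
      refine h2.trans ?_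
      rw [div_le_iff₀ (by linarith)]
      nlinarith
    have h2 : Real.exp (-(2 * y)) ^ NR ≤ (1 - y) ^ NR := pow_le_pow_left₀ (Real.exp_pos _).le h1 _
    refine le_trans ?_ h2
    rw [← Real.exp_nat_mul]
    apply Real.exp_le_exp.2
    have h3 : (NR : ℝ) ≤ 8 * lam * B / L := by
      refine hNR.trans ?_
      rw [div_le_div_iff_of_pos_right hL0]
      have : (1 : ℝ) ≤ B := by
        have := Real.add_one_le_exp (1 : ℝ)
        linarith
      nlinarith
    have h4 : 2 * y ≤ ((M : ℝ) + 2) * D' / B := by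
      have h5 : 2 * y = ((M : ℝ) + 2) / a := by rw [hy]; field_simp
      rw [h5, div_le_div_iff₀ ha0 hB0]
      rw [div_le_iff₀ (by linarith)] at haD
      nlinarith
    have h5 : (NR : ℝ) * (2 * y) ≤ (8 * lam * B / L) * (((M : ℝ) + 2) * D' / B) :=
      mul_le_mul h3 h4 (by positivity) (by positivity)
    have h6 : (8 * lam * B / L) * (((M : ℝ) + 2) * D' / B) = 8 * lam * D' * (((M : ℝ) + 2) / L) := by
      field_simp
    have h7 : ((M : ℝ) + 2) / L ≤ c * L + 2 := by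
      rw [div_le_iff₀ hL0]
      nlinarith
    have h8 : 8 * lam * D' * (((M : ℝ) + 2) / L) ≤ 8 * lam * D' * (c * L + 2) :=
      mul_le_mul_of_nonneg_left h7 (by positivity)
    rw [h6] at h5
    nlinarith
  have hprod : Real.exp (-(c * L * (1 + l))) * Real.exp (-(2 * lam * l * (c * L) + 2 * lam * (4 + K) * l)) *
      Real.exp (-(8 * lam * D' * (c * L) + 16 * lam * D')) ≤
      (δ / B) ^ k * δ ^ N1 * (1 - ((M : ℝ) + 2) / (2 * a)) ^ NR := by
    apply mul_le_mul (mul_le_mul f1 f2 (Real.exp_pos _).le (by positivity)) f3 (Real.exp_pos _).le (by positivity)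
  refine le_trans ?_ hprod
  rw [← Real.exp_add, ← Real.exp_add]
  apply Real.exp_le_exp.2
  have h1 : c * (1 + l + 2 * lam * l + 8 * lam * D') * L ≤ 1 / 8 * L := mul_le_mul_of_nonneg_right hc4 hL0.le
  nlinarith

/-- the scale is large -/
def Big (c₀ D' lam K l : ℝ) (n₁ : ℕ) (N : ℕ) : Prop :=
  3 ≤ Real.log N ∧ 8 * D' ≤ Real.log N ∧ 2 * lam * (4 + K) * l + 16 * lam * D' ≤ Real.log N / 8 ∧
    3 * Real.exp (Real.log N / 8) + 2 ≤ c₀ / 4 * N ∧ Real.exp (Real.log N / 2) ≤ c₀ / 2 * N ∧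
    (n₁ : ℝ) ≤ c₀ / 4 * N ∧ 3 ≤ c₀ / 4 * N ∧
    (Real.log N) ^ 2 + 1 + 2 * Real.log N ≤ c₀ / 12 * Real.exp (5 * Real.log N / 8)

theorem big_ev (c₀ D' lam K l : ℝ) (hc₀ : 0 < c₀) (n₁ : ℕ) : ∀ᶠ N : ℕ in atTop, Big c₀ D' lam K l n₁ N := by
  have hN : Tendsto (fun N : ℕ => (N : ℝ)) atTop atTop := tendsto_natCast_atTop_atTop
  have hL : Tendsto (fun N : ℕ => Real.log (N : ℝ)) atTop atTop := Real.tendsto_log_atTop.comp hN
  have e1 : ∀ᶠ L : ℝ in atTop, 3 * Real.exp (L / 8) + 2 ≤ c₀ / 4 * Real.exp L := by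
    have h1 : Tendsto (fun L : ℝ => Real.exp (7 * L / 8)) atTop atTop :=
      Real.tendsto_exp_atTop.comp (by
        have : Tendsto (fun L : ℝ => (7 / 8) * L) atTop atTop := tendsto_id.const_mul_atTop (by norm_num)
        refine this.congr (fun L => by ring))
    filter_upwards [h1.eventually_ge_atTop (20 / c₀), eventually_ge_atTop 0] with L h2 h3
    have h4 : Real.exp L = Real.exp (L / 8) * Real.exp (7 * L / 8) := by rw [← Real.exp_add]; ring_nf
    have h5 : 1 ≤ Real.exp (L / 8) := Real.one_le_exp (by linarith)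
    rw [h4]
    rw [div_le_iff₀ hc₀] at h2
    nlinarith [mul_le_mul_of_nonneg_left h2 (by linarith : (0 : ℝ) ≤ Real.exp (L / 8))]
  have e2 : ∀ᶠ L : ℝ in atTop, Real.exp (L / 2) ≤ c₀ / 2 * Real.exp L := by
    have h1 : Tendsto (fun L : ℝ => Real.exp (L / 2)) atTop atTop :=
      Real.tendsto_exp_atTop.comp (tendsto_id.atTop_div_const (by norm_num))
    filter_upwards [h1.eventually_ge_atTop (2 / c₀)] with L h2
    have h4 : Real.exp L = Real.exp (L / 2) * Real.exp (L / 2) := by rw [← Real.exp_add]; ring_nf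
    rw [h4]
    rw [div_le_iff₀ hc₀] at h2
    nlinarith [Real.exp_pos (L / 2)]
  have e3 : ∀ᶠ L : ℝ in atTop, L ^ 2 + 1 + 2 * L ≤ c₀ / 12 * Real.exp (5 * L / 8) := by
    have h1 := (isLittleO_pow_exp_pos_mul_atTop 2 (show (0 : ℝ) < 5 / 8 by norm_num)).def
      (show (0 : ℝ) < c₀ / 48 by positivity)
    filter_upwards [h1, eventually_ge_atTop 1] with L h2 h3
    rw [Real.norm_of_nonneg (by positivity), Real.norm_of_nonneg (Real.exp_pos _).le] at h2
    have h4 : (5 : ℝ) * L / 8 = 5 / 8 * L := by ring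
    rw [h4]
    nlinarith
  filter_upwards [hL.eventually_ge_atTop 3, hL.eventually_ge_atTop (8 * D'),
    hL.eventually_ge_atTop (8 * (2 * lam * (4 + K) * l + 16 * lam * D')), hL.eventually e1, hL.eventually e2,
    hL.eventually e3, hN.eventually_ge_atTop (4 / c₀ * n₁), hN.eventually_ge_atTop (4 / c₀ * 3),
    eventually_gt_atTop 0] with N g1 g2 g3 g4 g5 g6 g7 g8 g9
  have hN0 : (0 : ℝ) < N := by exact_mod_cast g9
  rw [Real.exp_log hN0] at g4 g5
  refine ⟨g1, g2, by linarith, g4, g5, ?_, ?_, g6⟩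
  · have := mul_le_mul_of_nonneg_left g7 (show 0 ≤ c₀ / 4 by positivity)
    calc (n₁ : ℝ) = c₀ / 4 * (4 / c₀ * n₁) := by field_simp
      _ ≤ _ := this
  · have := mul_le_mul_of_nonneg_left g8 (show 0 ≤ c₀ / 4 by positivity)
    calc (3 : ℝ) = c₀ / 4 * (4 / c₀ * 3) := by field_simp
      _ ≤ _ := this

/-- one pattern at one scale -/
theorem one_pattern (δ : ℝ) (hδ0 : 0 < δ) (hδ1 : δ ≤ 1) (K lam D' c c₀ : ℝ) (hK : 0 < K) (hlam : 0 < lam)
    (hD' : 1 ≤ D') (hc : 0 < c) (hc₀ : 0 < c₀)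
    (hc1 : c ≤ 1 / 8) (hc2 : c * (D' * K) ≤ 1) (hc3 : c * (2 * D' * (1 + 2 * lam * (5 + K))) ≤ 1)
    (hc4 : c * (1 + Real.log (1 / δ) + 2 * lam * Real.log (1 / δ) + 8 * lam * D') ≤ 1 / 8)
    (W : ℕ → ℕ) (hmono : Monotone W) (n₁ : ℕ) (N : ℕ)
    (hWlow : ∀ p : ℕ, n₁ ≤ p → c₀ / 4 * N ≤ p → (W N : ℝ) ≤ D' * W p)
    {X : ℕ → Ω → ℕ} (hX : ∀ p, Measurable (X p)) (hind : iIndepFun X μ)
    (hlaw : ∀ p : ℕ, p.Prime → n₁ ≤ p → Law μ (X p) 0 (W p) δ)
    (hbig : Big c₀ D' lam K (Real.log (1 / δ)) n₁ N)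
    (hreg : c₀ * N ≤ (((range N).filter (fun m : ℕ => ∀ x : ℝ, (m : ℝ) < x → x < m + 1 →
        AS (1 / 2) K lam x)).card : ℝ)) (H : Finset ℕ) (hH : Adm c W N H) :
    μ.real {ω | ¬ Shown c W N c₀ X H ω} ≤ Real.exp (-(c₀ / 12 * Real.exp (5 * Real.log N / 8))) := by
  obtain ⟨hL3, hLD, hL8, hN4, hN5, hN6, hN7, hN8⟩ := hbig
  obtain ⟨hHne, hHM, hH1, hH2⟩ := hH
  set L := Real.log N with hL
  set B := W N with hB
  set M := ML c W N with hM
  have hL0 : 0 < L := by linarith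
  have hN0 : (0 : ℝ) < N := by
    rcases Nat.eq_zero_or_pos N with h | h
    · rw [hL, h] at hL3
      norm_num at hL3
    · exact_mod_cast h
  have hk1 : (1 : ℝ) ≤ H.card := by exact_mod_cast hHne.card_pos
  have hLB : L ≤ c * B := by nlinarith
  have hcB : (B : ℝ) ≥ 8 * L := by
    have hB0 : (0 : ℝ) ≤ B := Nat.cast_nonneg B
    nlinarith
  have hB0 : (0 : ℝ) < B := by linarith
  have hBe : Real.exp 1 ≤ B := by
    have := Real.exp_one_lt_d9
    linarith
  have hlogB : 0 ≤ Real.log B := Real.log_nonneg (by linarith)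
  have hBN : (B : ℝ) ≤ Real.exp (L / 8) := by
    rw [← Real.exp_log hB0]
    apply Real.exp_le_exp.2
    nlinarith
  have hMr : (M : ℝ) ≤ c * min (B : ℝ) (L ^ 2) := Nat.floor_le (by positivity)
  have hMB : (M : ℝ) ≤ c * B := hMr.trans (mul_le_mul_of_nonneg_left (min_le_left _ _) hc.le)
  have hML2 : (M : ℝ) ≤ c * L ^ 2 := hMr.trans (mul_le_mul_of_nonneg_left (min_le_right _ _) hc.le)
  set a : ℕ := ⌈(B : ℝ) / D'⌉₊ with ha
  have ha1 : (B : ℝ) / D' ≤ a := Nat.le_ceil _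
  have haB : a ≤ B := by
    rw [ha, Nat.ceil_le]
    exact div_le_self hB0.le hD'
  have haW : ∀ p : ℕ, n₁ ≤ p → c₀ / 4 * N ≤ p → a ≤ W p := by
    intro p h1 h2
    rw [ha, Nat.ceil_le, div_le_iff₀ (by linarith)]
    have := hWlow p h1 h2
    linarith
  have hlam5 : 0 < 2 * lam * (5 + K) := by positivity
  have hcD : c * D' ≤ 1 / 2 := by
    have h1 : c * (2 * D' * (1 + 2 * lam * (5 + K))) = 2 * (c * D') + 2 * (c * D') * (2 * lam * (5 + K)) := by ring
    have h2 : 0 ≤ 2 * (c * D') * (2 * lam * (5 + K)) := by positivity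
    linarith
  have hBD : 8 ≤ (B : ℝ) / D' := by
    rw [le_div_iff₀ (by linarith)]
    linarith
  have hcBD : c * B ≤ (B : ℝ) / D' / 2 := by
    rw [le_div_iff₀ (by norm_num), le_div_iff₀ (by linarith)]
    nlinarith
  have hMa : M + 4 ≤ a := by
    have h1 : (M : ℝ) + 4 ≤ a := by linarith
    exact_mod_cast h1
  have hKL : K * L ≤ a := by
    refine le_trans ?_ ha1
    rw [le_div_iff₀ (by linarith)]
    calc K * L * D' ≤ K * (c * B) * D' := by gcongr
      _ = c * (D' * K) * B := by ring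
      _ ≤ 1 * B := mul_le_mul_of_nonneg_right hc2 hB0.le
      _ = B := one_mul _
  -- the positions
  set S : Finset ℕ := ((range N).filter (fun m : ℕ => ∀ x : ℝ, (m : ℝ) < x → x < m + 1 →
        AS (1 / 2) K lam x)).filter (fun m => c₀ / 2 * N ≤ m) with hS
  have hScard : c₀ / 4 * N ≤ S.card := by
    have h1 : (range N).filter (fun m : ℕ => ∀ x : ℝ, (m : ℝ) < x → x < m + 1 → AS (1 / 2) K lam x) ⊆
        S ∪ range ⌈c₀ / 2 * N⌉₊ := by
      intro m hm
      rw [mem_union, hS, mem_filter, mem_range]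
      by_cases h2 : c₀ / 2 * N ≤ m
      · exact Or.inl ⟨hm, h2⟩
      · right
        rw [Nat.lt_ceil]
        exact not_le.1 h2
    have h2 := (card_le_card h1).trans (card_union_le _ _)
    rw [card_range] at h2
    have h3 : ((⌈c₀ / 2 * N⌉₊ : ℕ) : ℝ) < c₀ / 2 * N + 1 := Nat.ceil_lt_add_one (by positivity)
    have h4 : ((#((range N).filter (fun m : ℕ => ∀ x : ℝ, (m : ℝ) < x → x < m + 1 →
      AS (1 / 2) K lam x)) : ℕ) : ℝ) ≤ S.card + ⌈c₀ / 2 * N⌉₊ := by exact_mod_cast h2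
    linarith
  obtain ⟨J, hJS, hJsep, hJcard⟩ := separated S (3 * B) (by
    have h1 : (1 : ℝ) ≤ B := by linarith
    have h2 : 1 ≤ B := by exact_mod_cast h1
    omega)
  have hmem : ∀ m ∈ J, m < N ∧ c₀ / 2 * N ≤ m ∧ AS (1 / 2) K lam ((m : ℝ) + 1 / 2) := by
    intro m hm
    have h1 := hJS hm
    rw [hS, mem_filter, mem_filter, mem_range] at h1
    exact ⟨h1.1.1, h1.2, h1.1.2 _ (by linarith) (by linarith)⟩
  have key : ∀ m ∈ J, ∃ (n : ℕ) (T : ℕ → Set ℕ), n + M ≤ m ∧ m ≤ n + M + 1 ∧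
      Real.exp (-(L / 4)) ≤ μ.real (Hit X (pr (m - 3 * B) m) T) ∧
      ∀ ω ∈ Hit X (pr (m - 3 * B) m) T, ∀ h ≤ M,
        (∃ p ∈ pr (m - 3 * B) m, p + 2 * X p ω = n + h) ↔ h ∈ H := by
    intro m hm
    obtain ⟨hmN, hmc, hmreg⟩ := hmem m hm
    have hmN' : (m : ℝ) + 1 ≤ N := by exact_mod_cast hmN
    have h3B : (3 : ℝ) * B + 2 ≤ c₀ / 4 * N := by linarith
    have h3Bm : 3 * B + 2 ≤ m := by
      have h1 : (3 : ℝ) * B + 2 ≤ m := by
        have : c₀ / 4 * N ≤ c₀ / 2 * N := by nlinarith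
        linarith
      exact_mod_cast h1
    obtain ⟨n, hn1, hn2, hn3, hn4, hn5, hn6, hn7, hn8⟩ := local_data K lam hK hlam m a B M L hL0 hmreg
      (by
        rw [Real.le_log_iff_exp_le (by positivity)]
        linarith)
      (by
        rw [hL]
        exact Real.log_le_log (by positivity) (by linarith))
      hKL haB hMa h3Bm
    have hRp : ∀ p ∈ pr (m - 3 * B) m, p % 2 = 1 ∧ Law μ (X p) 0 (W p) δ ∧ a ≤ W p ∧ W p ≤ B := by
      intro p hp
      rw [mem_pr] at hp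
      have h1 : m < p + 3 * B := by omega
      have h2 : (m : ℝ) < p + 3 * B := by exact_mod_cast h1
      have h3 : c₀ / 4 * N ≤ p := by linarith
      have h4 : n₁ ≤ p := by
        have : (n₁ : ℝ) ≤ p := hN6.trans h3
        exact_mod_cast this
      refine ⟨?_, hlaw p hp.2 h4, haW p h4 h3, hmono (by omega)⟩
      rcases hp.2.eq_two_or_odd with h5 | h5
      · exfalso
        have h6 : (3 : ℝ) ≤ p := hN7.trans h3
        rw [h5] at h6
        norm_num at h6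
      · exact h5
    obtain ⟨T, hT1, hT2⟩ := one μ hX hind δ hδ0 hδ1 W a B n M (pr (m - 3 * B) m) (pr (m - a) (m - M - 3)) H
      (by omega) (by
        have : (M : ℝ) + 4 ≤ a := by exact_mod_cast hMa
        linarith) hn1 hRp hn6 hn5 (by
        have h1 : (H.card : ℝ) ≤ ((pr (m - a) (m - M - 3)).card : ℝ) := by
          refine le_trans ?_ hn4
          rw [le_sub_iff_add_le]
          have h2 : (a : ℝ) / (2 * L) ≥ (B : ℝ) / D' / (2 * L) := by
            apply div_le_div_of_nonneg_right ha1 (by positivity)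
          refine le_trans ?_ h2
          rw [le_div_iff₀ (by positivity)]
          have h3 : ((H.card : ℝ) + 2 * lam * ((M : ℝ) + 4 + K * L) / L) * (2 * L) =
              2 * (H.card * L + 2 * lam * ((M : ℝ) + 4 + K * L)) := by field_simp
          rw [h3, le_div_iff₀ (by linarith)]
          have h4 : (M : ℝ) + 4 + K * L ≤ (5 + K) * (c * B) := by
            have : K * L ≤ K * (c * B) := mul_le_mul_of_nonneg_left hLB hK.le
            nlinarith
          have h5 : (H.card : ℝ) * L + 2 * lam * ((M : ℝ) + 4 + K * L) ≤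
              (1 + 2 * lam * (5 + K)) * (c * B) := by
            have := mul_le_mul_of_nonneg_left h4 (show 0 ≤ 2 * lam by positivity)
            linarith
          calc 2 * ((H.card : ℝ) * L + 2 * lam * ((M : ℝ) + 4 + K * L)) * D' ≤
                2 * ((1 + 2 * lam * (5 + K)) * (c * B)) * D' := by
                apply mul_le_mul_of_nonneg_right _ (by linarith)
                linarith
            _ = c * (2 * D' * (1 + 2 * lam * (5 + K))) * B := by ring
            _ ≤ 1 * B := mul_le_mul_of_nonneg_right hc3 hB0.le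
            _ = B := one_mul _
        exact_mod_cast h1) hHM
    refine ⟨n, T, hn2, hn3, ?_, hT2⟩
    refine le_trans ?_ hT1
    exact cost_bound δ hδ0 hδ1 K lam D' c L hK hlam hD' hc B a M H.card _ _ hc4 (by linarith) hL8 hBe ha1 hMa hML2
      hH2 hn7 hn8
  choose! n T h1 h2 h3 h4 using key
  have hsub : {ω | ¬ Shown c W N c₀ X H ω} ⊆ ⋂ m ∈ J, (Hit X (pr (m - 3 * B) m) (T m))ᶜ := by
    intro ω hω
    simp only [Set.mem_iInter, Set.mem_compl_iff]
    intro m hm hc'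
    apply hω
    obtain ⟨hmN, hmc, hmreg⟩ := hmem m hm
    exact ⟨m, n m, hmN, hmc, h1 m hm, h2 m hm, h4 m hm ω hc'⟩
  refine (measureReal_mono hsub).trans ?_
  refine (none_le μ hX hind J (fun m => pr (m - 3 * B) m) T ?_ (Real.exp (-(L / 4))) h3).trans ?_
  · intro i hi j hj hij
    rw [Finset.disjoint_left]
    intro p hp hp'
    rw [mem_pr] at hp hp'
    rcases lt_or_gt_of_ne hij with h5 | h5
    · have := hJsep i hi j hj h5
      omega
    · have := hJsep j hj i hi h5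
      omega
  · apply Real.exp_le_exp.2
    rw [neg_le_neg_iff]
    have h5 : (S.card : ℝ) ≤ 3 * B * J.card := by exact_mod_cast hJcard
    have h6 : c₀ / 12 * N ≤ B * J.card := by linarith
    have h7 : (B : ℝ) * J.card ≤ Real.exp (L / 8) * J.card := mul_le_mul_of_nonneg_right hBN (Nat.cast_nonneg _)
    have h8 : (N : ℝ) = Real.exp L := by rw [hL, Real.exp_log hN0]
    have h9 : c₀ / 12 * Real.exp L ≤ Real.exp (L / 8) * J.card := by rw [← h8]; exact h6.trans h7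
    have h10 : c₀ / 12 * Real.exp (5 * L / 8) = Real.exp (-(3 * L / 8)) * (c₀ / 12 * Real.exp L) := by
      have : Real.exp (5 * L / 8) = Real.exp (-(3 * L / 8)) * Real.exp L := by
        rw [← Real.exp_add]; ring_nf
      rw [this]; ring
    rw [h10]
    calc Real.exp (-(3 * L / 8)) * (c₀ / 12 * Real.exp L) ≤
          Real.exp (-(3 * L / 8)) * (Real.exp (L / 8) * J.card) :=
          mul_le_mul_of_nonneg_left h9 (Real.exp_pos _).le
      _ = (Real.exp (-(3 * L / 8)) * Real.exp (L / 8)) * J.card := by ring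
      _ = J.card * Real.exp (-(L / 4)) := by
          rw [← Real.exp_add, mul_comm]
          ring_nf

/-- all patterns at one scale -/
theorem all_patterns (δ : ℝ) (hδ0 : 0 < δ) (hδ1 : δ ≤ 1) (K lam D' c c₀ : ℝ) (hK : 0 < K) (hlam : 0 < lam)
    (hD' : 1 ≤ D') (hc : 0 < c) (hc₀ : 0 < c₀)
    (hc1 : c ≤ 1 / 8) (hc2 : c * (D' * K) ≤ 1) (hc3 : c * (2 * D' * (1 + 2 * lam * (5 + K))) ≤ 1)
    (hc4 : c * (1 + Real.log (1 / δ) + 2 * lam * Real.log (1 / δ) + 8 * lam * D') ≤ 1 / 8)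
    (W : ℕ → ℕ) (hmono : Monotone W) (n₁ : ℕ) (N : ℕ)
    (hWlow : ∀ p : ℕ, n₁ ≤ p → c₀ / 4 * N ≤ p → (W N : ℝ) ≤ D' * W p)
    {X : ℕ → Ω → ℕ} (hX : ∀ p, Measurable (X p)) (hind : iIndepFun X μ)
    (hlaw : ∀ p : ℕ, p.Prime → n₁ ≤ p → Law μ (X p) 0 (W p) δ)
    (hbig : Big c₀ D' lam K (Real.log (1 / δ)) n₁ N)
    (hreg : c₀ * N ≤ (((range N).filter (fun m : ℕ => ∀ x : ℝ, (m : ℝ) < x → x < m + 1 →
        AS (1 / 2) K lam x)).card : ℝ)) :
    μ.real {ω | ∃ H, Adm c W N H ∧ ¬ Shown c W N c₀ X H ω} ≤ 1 / (N : ℝ) ^ 2 := by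
  have hN8 := hbig.2.2.2.2.2.2.2
  have hL3 := hbig.1
  set L := Real.log N with hL
  have hN0 : (0 : ℝ) < N := by
    rcases Nat.eq_zero_or_pos N with h | h
    · rw [hL, h] at hL3
      norm_num at hL3
    · exact_mod_cast h
  set 𝓗 : Finset (Finset ℕ) := (powerset (range (ML c W N + 1))).filter (fun H => Adm c W N H) with h𝓗
  have hsub : {ω | ∃ H, Adm c W N H ∧ ¬ Shown c W N c₀ X H ω} ⊆ ⋃ H ∈ 𝓗, {ω | ¬ Shown c W N c₀ X H ω} := by
    rintro ω ⟨H, hH, h1⟩
    rw [Set.mem_iUnion₂]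
    refine ⟨H, ?_, h1⟩
    rw [h𝓗, mem_filter, mem_powerset]
    refine ⟨fun h hh => ?_, hH⟩
    rw [mem_range]
    have := (hH.2.1 h hh).2
    omega
  have h1 : ∀ H ∈ 𝓗, μ.real {ω | ¬ Shown c W N c₀ X H ω} ≤ Real.exp (-(c₀ / 12 * Real.exp (5 * L / 8))) := by
    intro H hH
    rw [h𝓗, mem_filter] at hH
    exact one_pattern μ δ hδ0 hδ1 K lam D' c c₀ hK hlam hD' hc hc₀ hc1 hc2 hc3 hc4 W hmono n₁ N hWlow hX hind hlaw
      hbig hreg H hH.2
  refine (measureReal_mono hsub (measure_ne_top _ _)).trans ((measureReal_biUnion_finset_le _ _).trans ((sum_le_sum h1).trans ?_))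
  rw [sum_const, nsmul_eq_mul]
  have h2 : (𝓗.card : ℝ) ≤ Real.exp (L ^ 2 + 1) := by
    have h3 : 𝓗.card ≤ 2 ^ (ML c W N + 1) := by
      refine (card_filter_le _ _).trans ?_
      rw [card_powerset, card_range]
    have h4 : ((2 : ℕ) ^ (ML c W N + 1) : ℕ) ≤ Real.exp (L ^ 2 + 1) := by
      push_cast
      have h5 : (2 : ℝ) ≤ Real.exp 1 := by
        have := Real.add_one_le_exp (1 : ℝ)
        linarith
      calc (2 : ℝ) ^ (ML c W N + 1) ≤ (Real.exp 1) ^ (ML c W N + 1) := pow_le_pow_left₀ (by norm_num) h5 _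
        _ = Real.exp ((ML c W N + 1 : ℕ) : ℝ) := by rw [← Real.exp_nat_mul, mul_one]
        _ ≤ Real.exp (L ^ 2 + 1) := by
            apply Real.exp_le_exp.2
            push_cast
            have h6 : (ML c W N : ℝ) ≤ c * min (W N : ℝ) (L ^ 2) := Nat.floor_le (by positivity)
            have h7 : c * min (W N : ℝ) (L ^ 2) ≤ 1 * L ^ 2 :=
              mul_le_mul (by linarith) (min_le_right _ _) (by positivity) zero_le_one
            linarith
    exact (by exact_mod_cast h3 : (𝓗.card : ℝ) ≤ ((2 ^ (ML c W N + 1) : ℕ) : ℝ)).trans h4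
  calc (𝓗.card : ℝ) * Real.exp (-(c₀ / 12 * Real.exp (5 * L / 8))) ≤
        Real.exp (L ^ 2 + 1) * Real.exp (-(c₀ / 12 * Real.exp (5 * L / 8))) :=
        mul_le_mul_of_nonneg_right h2 (Real.exp_pos _).le
    _ = Real.exp (L ^ 2 + 1 - c₀ / 12 * Real.exp (5 * L / 8)) := by rw [← Real.exp_add]; ring_nf
    _ ≤ Real.exp (-(2 * L)) := by
        apply Real.exp_le_exp.2
        linarith
    _ = 1 / (N : ℝ) ^ 2 := by
        rw [Real.exp_neg, two_mul, Real.exp_add, hL, Real.exp_log hN0, one_div, sq]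

end Pool.Agent.R526.PT
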